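import Pool.Agent.AT3.Stmts3
import Pool.Agent.Helper97_K9.NZR
import Pool.Agent.Helper69_K9.Fmg
import Pool.Agent.Helper3_K9.Psi

/-!
# Squad AT3, modules LSB and NVT
-/

open scoped BigOperators

noncomputable section

namespace Pool.Agent.PP.T3.H85

open Pool.Agent.Helper51_AWC Pool.Agent.Helper79_WRA Pool.Agent.PP Pool.Agent.PP.KF
open Pool.Agent.PP.K9 Pool.Agent.PP.K9.H97 Pool.Agent.PP.H75

attribute [local instance] Ideal.Quotient.field

section transfer

variable {F G : Type} [Field F] [Group G] [Finite G] {X V : Subgroup G}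

/-- the centralisers of `V` in `X` and in `G` -/
def cequiv (hVX : V ≤ X) (hCX : Subgroup.centralizer (V : Set G) ≤ X) :
    Subgroup.centralizer ((V.subgroupOf X : Subgroup X) : Set X) ≃*
      Subgroup.centralizer (V : Set G) where
  toFun t := ⟨((t : X) : G), (cent_sub hVX (t : X)).1 t.2⟩
  invFun t := ⟨⟨(t : G), hCX t.2⟩, (cent_sub hVX ⟨(t : G), hCX t.2⟩).2 t.2⟩
  left_inv _ := rfl
  right_inv _ := rfl
  map_mul' _ _ := rfl

omit [Finite G] in
theorem cent_eq (hVX : V ≤ X) :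
    Subgroup.centralizer ((V.subgroupOf X : Subgroup X) : Set X) =
      (Subgroup.centralizer (V : Set G)).subgroupOf X := by
  ext t
  rw [Subgroup.mem_subgroupOf]
  exact cent_sub hVX t

omit [Finite G] in
theorem Tg_eq (hVX : V ≤ X) (hCX : Subgroup.centralizer (V : Set G) ≤ X) {γ : G → F}
    (hγ : ∀ x, x ∉ Subgroup.centralizer (V : Set G) → γ x = 0) :
    Tg (V.subgroupOf X) (fun t : X => γ t) = (Tg V γ ⊓ X).subgroupOf X := by
  ext t
  have h1 : t ∈ Subgroup.normalizer ((V.subgroupOf X : Subgroup X) : Set X) ↔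
      (t : G) ∈ Subgroup.normalizer (V : Set G) := by
    rw [← norm_sub hVX, Subgroup.mem_subgroupOf]
    exact ⟨fun h => h.1, fun h => ⟨h, t.2⟩⟩
  have h2 : t ∈ stabF (fun t : X => γ t) ↔ (t : G) ∈ stabF γ := by
    constructor
    · intro h x
      by_cases hx : x ∈ X
      · exact h ⟨x, hx⟩
      · rw [hγ x (fun h' => hx (hCX h')), hγ]
        intro h'
        apply hx
        have h3 := X.mul_mem (X.mul_mem (X.inv_mem t.2) (hCX h')) t.2
        have e : (t : G)⁻¹ * (t * x * (t : G)⁻¹) * t = x := by group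
        rwa [e] at h3
    · intro h x
      exact h (x : G)
  constructor
  · rintro ⟨ha, hb⟩
    rw [Subgroup.mem_subgroupOf]
    exact ⟨⟨h1.1 ha, h2.1 hb⟩, t.2⟩
  · intro h
    rw [Subgroup.mem_subgroupOf] at h
    exact ⟨h1.2 h.1.1, h2.2 h.1.2⟩

omit [Finite G] in
theorem ix_eq (hVX : V ≤ X) (hCX : Subgroup.centralizer (V : Set G) ≤ X) {γ : G → F}
    (hγ : ∀ x, x ∉ Subgroup.centralizer (V : Set G) → γ x = 0) :
    ix (V.subgroupOf X) (fun t : X => γ t) =
      (Subgroup.centralizer (V : Set G)).relIndex (Tg V γ ⊓ X) := by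
  unfold ix
  rw [Tg_eq hVX hCX hγ, cent_eq hVX]
  exact Subgroup.relIndex_subgroupOf inf_le_right

/-- transfer of the local data -/
theorem ld_of {ℓ : ℕ} (hVX : V ≤ X) (hCX : Subgroup.centralizer (V : Set G) ≤ X)
    (hab : ∀ a ∈ V, ∀ b ∈ V, a * b = b * a) {b γ : G → F}
    (hb : IsBlk (fun t : X => b t)) (hγ : Bx (Subgroup.centralizer (V : Set G)) γ)
    (hbg : mulF (br V b) γ = γ) (hT : Tp ℓ (fun t : X => b t) (V.subgroupOf X)) :
    Ld ℓ (fun t : X => b t) (V.subgroupOf X) (fun t : X => γ t) := by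
  refine ⟨hb, hT, ?_, ⟨?_, ?_⟩, ?_⟩
  · intro a ha c hc
    exact Subtype.ext (hab a ha c hc)
  · intro x hx
    exact hγ.supp x (fun h => hx ((cent_sub hVX x).2 h))
  · exact H20.IsBlk_equiv (cequiv hVX hCX) hγ.blk
  · have h1 : br (V.subgroupOf X) (fun t : X => b t) = fun t : X => br V b t := by
      funext t
      by_cases ht : (t : G) ∈ Subgroup.centralizer (V : Set G)
      · rw [H66.br_of_mem ht, H66.br_of_mem ((cent_sub hVX t).2 ht)]
      · rw [H66.br_of_not_mem ht, H66.br_of_not_mem (fun h => ht ((cent_sub hVX t).1 h))]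
    rw [h1, ← mulF_res X γ (fun x hx => H66.br_of_not_mem (fun h => hx (hCX h))), hbg]

omit [Finite G] in
theorem cent_le_norm (V : Subgroup G) :
    Subgroup.centralizer (V : Set G) ≤ Subgroup.normalizer (V : Set G) := by
  intro g hg
  rw [Subgroup.mem_normalizer_iff]
  intro v
  have h1 := Subgroup.mem_centralizer_iff.1 hg
  constructor
  · intro hv
    rw [← h1 v hv, mul_inv_cancel_right]
    exact hv
  · intro hv
    have h2 := h1 _ hv
    have h3 : g * v = g * (g * v * g⁻¹) := by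
      rw [← h2]
      group
    rw [mul_left_cancel h3]
    exact hv

omit [Finite G] in
theorem gd_of_gam (hVX : V ≤ X) (hCX : Subgroup.centralizer (V : Set G) ≤ X) {b γ : G → F}
    (hγ : Bx (Subgroup.centralizer (V : Set G)) γ) (hbg : mulF (br V b) γ = γ) :
    Gd (fun t : X => b t) (V.subgroupOf X) := by
  by_contra hcon
  have h0 : br V b = 0 := by
    funext g
    by_cases hg : g ∈ Subgroup.centralizer (V : Set G)
    · rw [H66.br_of_mem hg]
      by_contra h1
      apply hcon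
      exact ⟨⟨g, hCX hg⟩, (cent_sub hVX ⟨g, hCX hg⟩).2 hg, h1⟩
    · rw [H66.br_of_not_mem hg]
      rfl
  rw [h0] at hbg
  apply hγ.ne
  rw [← hbg]
  funext x
  unfold mulF
  simp

omit [Finite G] [Group G] in
open Classical in
theorem push_equiv' {A B : Type} [Group A] [Group B] (φ : A ≃* B) (a : A → F) :
    H75.push (φ : A →* B) a = fun y => a (φ.symm y) := by
  funext y
  unfold H75.push
  rw [finsum_eq_single _ (φ.symm y)]
  · rw [finsum_eq_if, if_pos (show (φ : A →* B) (φ.symm y) = y from φ.apply_symm_apply y)]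
  · intro x hx
    rw [finsum_eq_if, if_neg]
    intro h
    apply hx
    rw [← h]
    exact (φ.symm_apply_apply x).symm

end transfer

theorem dg_equiv {M : Ideal (integralClosure ℤ ℂ)} [M.IsMaximal] {A B : Type} [Group A] [Finite A]
    [Group B] [Finite B] (φ : A ≃* B) {b : A → FF M} (hb : IsCl b) {c : ℕ} (h : Dg M b c) :
    Dg M (fun y => b (φ.symm y)) c := by
  refine ⟨h.1, ?_⟩
  intro κ hκ
  have h1 := (K9.H3.psi M A B (φ : A →* B) φ.surjective b hb).1
  rw [push_equiv'] at h1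
  rw [h1] at hκ
  have h2 := h.2 _ hκ.2
  rw [← h2]
  change κ 1 = κ (φ 1)
  rw [map_one]

/-- LSB -/
theorem lsb : LsbStmt := by
  intro ℓ _ M _ hM G _ _ e V γ hL u hu b hLc
  have hF : GoodF ℓ (FF M) := H50.fld ℓ Fact.out M hM
  have hVX : V ≤ Cu u := fun v hv => Subgroup.mem_centralizer_singleton_iff.2 (hL.ab v hv u hu)
  have hCX : Subgroup.centralizer (V : Set G) ≤ Cu u := fun g hg =>
    Subgroup.mem_centralizer_singleton_iff.2 (Subgroup.mem_centralizer_iff.1 hg u hu).symm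
  have heC : IsCl (fun t : Cu u => e t) := fun x y => hL.blk.1.1 x y
  have hVcard : Nat.card (V.subgroupOf (Cu u)) = Nat.card V :=
    Nat.card_congr (Subgroup.subgroupOfEquivOfLe hVX).toEquiv
  have hVp : IsPGroup ℓ (V.subgroupOf (Cu u)) :=
    hL.tp.pg.of_equiv (Subgroup.subgroupOfEquivOfLe hVX).symm
  have hTb : Tp ℓ (fun t : Cu u => b t) (V.subgroupOf (Cu u)) := by
    refine ⟨hVp, gd_of_gam hVX hCX hL.gam hLc.gam, ?_⟩
    intro Q hQ hQb
    have h1 := gd_map (gd_of_mul hF heC hLc.blk.blk.1.1 hLc.und hQ hQb)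
    have hcard : Nat.card (Q.map (Cu u).subtype) = Nat.card Q :=
      (Nat.card_congr (Q.equivMapOfInjective (Cu u).subtype
        (Cu u).subtype_injective).toEquiv).symm
    have h2 := hL.tp.mx _ (hQ.map (Cu u).subtype) h1
    rw [hcard] at h2
    rw [hVcard]
    exact h2
  refine ⟨ld_of hVX hCX hL.ab hLc.blk.blk hL.gam hLc.gam hTb, ix_eq hVX hCX hL.gam.supp, hVcard,
    Nat.card_congr (cequiv hVX hCX).toEquiv, ?_⟩
  intro c hc
  exact dg_equiv (cequiv hVX hCX).symm hL.gam.blk.1.1 hc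

/-- NVT -/
theorem nvt : NvtStmt := by
  intro ℓ _ M _ hM G _ _ e V γ hL
  have hVX : V ≤ Subgroup.normalizer (V : Set G) := Subgroup.le_normalizer
  have hCX := cent_le_norm V
  obtain ⟨-, ⟨h1, h2⟩, -⟩ := K9.H69.fmg ℓ M hM G e hL.blk V hL.tp
  have hbr : br V (br V e) = br V e := by
    funext g
    by_cases hg : g ∈ Subgroup.centralizer (V : Set G)
    · rw [H66.br_of_mem hg]
    · rw [H66.br_of_not_mem hg, H66.br_of_not_mem hg]
  refine ⟨ld_of hVX hCX hL.ab h1 hL.gam (by rw [hbr]; exact hL.und) h2, ?_⟩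
  rw [ix_eq hVX hCX hL.gam.supp]
  unfold ix
  have h3 : Tg V γ ⊓ Subgroup.normalizer (V : Set G) = Tg V γ :=
    inf_eq_left.2 inf_le_left
  rw [h3]

end Pool.Agent.PP.T3.H85
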